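import Mathlib

set_option autoImplicit false

namespace Pool.Agent.Results.MP_024e1e_ag.Counter
open MvPolynomial

/-- the LSS ideal `L_G(d)` of a graph `G` -/
noncomputable def LSS (K : Type*) [Field K] {V : Type*} (G : SimpleGraph V) (d : ℕ) :
    Ideal (MvPolynomial (V × Fin d) K) :=
  Ideal.span {g | ∃ u v, G.Adj u v ∧ g = ∑ j : Fin d, X (u, j) * X (v, j)}

/-- the cube graph (`K_{4,4}` minus a perfect matching) as a subgraph of `K_{5,5}` -/
def G0 : SimpleGraph (Fin 5 ⊕ Fin 5) where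
  Adj x y := match x, y with
    | .inl a, .inr b => a ≠ 4 ∧ b ≠ 4 ∧ a ≠ b
    | .inr b, .inl a => a ≠ 4 ∧ b ≠ 4 ∧ a ≠ b
    | _, _ => False
  symm := ⟨by rintro (a | a) (b | b) h <;> exact h⟩
  loopless := ⟨by rintro (a | a) h <;> exact h⟩

instance : DecidableRel G0.Adj := fun x y => by
  cases x <;> cases y <;> unfold G0 <;> infer_instance

lemma card_le (A B : Finset (Fin 5)) (hA : A.Nonempty) (hB : B.Nonempty)
    (h : ∀ a ∈ A, ∀ b ∈ B, a ≠ 4 ∧ b ≠ 4 ∧ a ≠ b) : A.card + B.card ≤ 4 := by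
  obtain ⟨a0, ha0⟩ := hA
  obtain ⟨b0, hb0⟩ := hB
  rw [← Finset.card_union_of_disjoint (Finset.disjoint_left.2 fun a ha hb => (h a ha a hb).2.2 rfl)]
  have : A ∪ B ⊆ Finset.univ.erase 4 := fun x hx => by
    rcases Finset.mem_union.1 hx with hx | hx
    · simpa using (h x hx b0 hb0).1
    · simpa using (h a0 ha0 x hx).2.1
  simpa using Finset.card_le_card this

def idx : Fin 5 ⊕ Fin 5 → Fin 5 := Sum.elim id id

lemma no_K (a b : ℕ) (ha : 1 ≤ a) (hb : 1 ≤ b) (hab : 5 ≤ a + b) :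
    ¬ (completeBipartiteGraph (Fin a) (Fin b)).IsContained G0 := by
  rintro ⟨c⟩
  have adj : ∀ i j, G0.Adj (c (.inl i)) (c (.inr j)) := fun i j => c.toHom.map_adj (by simp)
  have key : ∀ x y, G0.Adj x y → idx x ≠ 4 ∧ idx y ≠ 4 ∧ idx x ≠ idx y := by decide
  have inj : ∀ x y z, G0.Adj x z → G0.Adj y z → idx x = idx y → x = y := by decide
  have h1 : Function.Injective fun i => idx (c (.inl i)) := fun i j h =>
    Sum.inl_injective (c.injective (inj _ _ _ (adj i ⟨0, hb⟩) (adj j ⟨0, hb⟩) h))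
  have h2 : Function.Injective fun i => idx (c (.inr i)) := fun i j h =>
    Sum.inr_injective (c.injective (inj _ _ _ (adj ⟨0, ha⟩ i).symm (adj ⟨0, ha⟩ j).symm h))
  have := card_le (Finset.univ.image fun i => idx (c (.inl i))) (Finset.univ.image fun i => idx (c (.inr i)))
    ⟨_, Finset.mem_image_of_mem _ (Finset.mem_univ ⟨0, ha⟩)⟩
    ⟨_, Finset.mem_image_of_mem _ (Finset.mem_univ ⟨0, hb⟩)⟩ (by
      intro x hx y hy
      obtain ⟨i, -, rfl⟩ := Finset.mem_image.1 hx
      obtain ⟨j, -, rfl⟩ := Finset.mem_image.1 hy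
      exact key _ _ (adj i j))
  rw [Finset.card_image_of_injective _ h1, Finset.card_image_of_injective _ h2] at this
  simp at this; omega

variable {K : Type*} [Field K]

lemma le_ker (x : (Fin 5 ⊕ Fin 5) × Fin 4 → K)
    (h : ∀ a b : Fin 5, a ≠ 4 → b ≠ 4 → a ≠ b → ∑ j, x (.inl a, j) * x (.inr b, j) = 0) :
    LSS K G0 4 ≤ RingHom.ker (eval x) := by
  refine Ideal.span_le.2 ?_
  rintro _ ⟨u, v, huv, rfl⟩
  show eval x _ = 0
  simp only [map_sum, map_mul, eval_X]
  rcases u with a | a <;> rcases v with b | b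
  · exact huv.elim
  · exact h a b huv.1 huv.2.1 huv.2.2
  · simpa [mul_comm] using h b a huv.1 huv.2.1 huv.2.2
  · exact huv.elim

def pp : Fin 4 → Fin 4 := ![0, 1, 0, 1]
def qq : Fin 4 → Fin 4 := ![2, 2, 3, 3]

lemma pq : ∀ s, qq s ≠ pp s := by decide

theorem result (K : Type*) [Field K] : G0 ≤ completeBipartiteGraph (Fin 5) (Fin 5) ∧
    (∀ a b : ℕ, 1 ≤ a → 1 ≤ b → 5 ≤ a + b → ¬ (completeBipartiteGraph (Fin a) (Fin b)).IsContained G0) ∧
    ¬ (LSS K G0 (5 - 1)).IsPrime := by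
  refine ⟨?_, no_K, fun hp => ?_⟩
  · rintro (a | a) (b | b) h <;> first | exact h.elim | simp
  change (LSS K G0 4).IsPrime at hp
  let F := FractionRing (MvPolynomial ((Fin 5 ⊕ Fin 5) × Fin 4) K ⧸ LSS K G0 4)
  let η : MvPolynomial ((Fin 5 ⊕ Fin 5) × Fin 4) K →+* F :=
    (algebraMap (_ ⧸ LSS K G0 4) F).comp (Ideal.Quotient.mk _)
  have hη : ∀ x, η x = 0 ↔ x ∈ LSS K G0 4 := fun x => by
    rw [RingHom.comp_apply, map_eq_zero_iff _ (IsFractionRing.injective _ _), Ideal.Quotient.eq_zero_iff_mem]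
  let U : Matrix (Fin 4) (Fin 4) F := Matrix.of fun i j => η (X (.inl i.castSucc, j))
  let W : Matrix (Fin 4) (Fin 4) F := Matrix.of fun j i => η (X (.inr i.castSucc, j))
  let D : Fin 4 → F := fun i => η (∑ j, X (.inl i.castSucc, j) * X (.inr i.castSucc, j))
  have hD : ∀ i, D i ≠ 0 := by
    intro i h
    have := le_ker (K := K) (fun p => if idx p.1 = p.2.castSucc then 1 else 0) (by
      intro a b _ _ hab
      refine Finset.sum_eq_zero fun j _ => ?_
      by_cases h : a = j.castSucc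
      · have : b ≠ j.castSucc := fun h' => hab (h.trans h'.symm)
        simp [idx, this]
      · simp [idx, h]) ((hη _).1 h)
    simp [RingHom.mem_ker, idx] at this
  have hUW : U * W = Matrix.diagonal D := by
    ext i k
    rw [Matrix.mul_apply, Matrix.diagonal_apply]
    split_ifs with h
    · subst h; simp [U, W, D]
    · have := (hη _).2 (Ideal.subset_span ⟨.inl i.castSucc, .inr k.castSucc,
        ⟨(Fin.castSucc_lt_last i).ne, (Fin.castSucc_lt_last k).ne, fun h' => h (Fin.castSucc_injective _ h')⟩,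
        rfl⟩ : _ ∈ LSS K G0 4)
      simpa [U, W] using this
  have h1 : U * (W * Matrix.diagonal fun i => (D i)⁻¹) = 1 := by
    rw [← Matrix.mul_assoc, hUW, Matrix.diagonal_mul_diagonal, ← Matrix.diagonal_one]
    congr 1; funext i; exact mul_inv_cancel₀ (hD i)
  have h2 := mul_eq_one_comm.1 h1
  let N : Matrix (Fin 4) (Fin 4) (MvPolynomial ((Fin 5 ⊕ Fin 5) × Fin 4) K) :=
    Matrix.of fun s i => X (.inr i.castSucc, qq s) * X (.inl i.castSucc, pp s)
  have h3 : η N.det = 0 := by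
    by_contra h
    rw [RingHom.map_det] at h
    have := Matrix.eq_zero_of_mulVec_eq_zero h (v := fun i => (D i)⁻¹) (by
      funext s
      have h4 := congrFun (congrFun h2 (qq s)) (pp s)
      rw [Matrix.one_apply_ne (pq s), Matrix.mul_apply] at h4
      rw [Pi.zero_apply, ← h4, Matrix.mulVec, dotProduct]
      refine Finset.sum_congr rfl fun i _ => ?_
      rw [Matrix.mul_diagonal]
      simp only [N, U, W, RingHom.mapMatrix_apply, Matrix.map_apply, Matrix.of_apply, map_mul]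
      ring)
    exact inv_ne_zero (hD 0) (congrFun this 0)
  let x : (Fin 5 ⊕ Fin 5) × Fin 4 → K := fun p => match p.1 with
    | .inl a => if p.2 = ![0, 1, 0, 1, 0] a then 1 else 0
    | .inr b => if p.2 = ![2, 2, 3, 3, 2] b then 1 else 0
  have h5 := le_ker x (by
    intro a b _ _ _
    fin_cases a <;> fin_cases b <;> simp [x]) ((hη _).1 h3)
  rw [RingHom.mem_ker, RingHom.map_det] at h5
  have h6 : (eval x).mapMatrix N = 1 := by
    ext s i
    fin_cases s <;> fin_cases i <;> simp [N, x, pp, qq]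
  rw [h6] at h5
  simp at h5

end Pool.Agent.Results.MP_024e1e_ag.Counter
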